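import Pool.Agent.Lib.MP_144d21_co.PSI.Iface

/-!
# MP_144d21_co, PSI: module PSIM (helper41)
-/

set_option autoImplicit false

namespace Pool.Agent.Xu.H41

open Finset Polynomial

/-- the six sums of two abscissas are different -/
theorem sum_inj {s s' : ℕ × ℕ} (hs : s ∈ prs) (hs' : s' ∈ prs)
    (h : xs s.1 + xs s.2 = xs s'.1 + xs s'.2) : s = s' := by
  simp only [prs, mem_insert, mem_singleton] at hs hs'
  rcases hs with rfl | rfl | rfl | rfl | rfl | rfl <;>
    rcases hs' with rfl | rfl | rfl | rfl | rfl | rfl <;>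
    first
      | rfl
      | (exfalso; norm_num [xs] at h)

theorem sub_ne {s : ℕ × ℕ} (hs : s ∈ prs) : xs s.1 - xs s.2 ≠ 0 := by
  simp only [prs, mem_insert, mem_singleton] at hs
  rcases hs with rfl | rfl | rfl | rfl | rfl | rfl <;> norm_num [xs]

section

variable {V : Type} [Fintype V] [DecidableEq V] {G : SimpleGraph V} {S : Finset V} {c : V → ℕ}

/-- the sum of the two abscissas of a component -/
noncomputable def sm (D : KC G S c) : ℝ := xs D.1.1.1 + xs D.1.1.2

theorem sm_inj {D D' : KC G S c} (h : sm D = sm D') : D.1.1 = D'.1.1 :=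
  sum_inj D.2.1 D'.2.1 h

/-- the indices of the components of the slope `p` -/
noncomputable def II {n : ℕ} (i : KC G S c → Fin n) (p : ℝ) : Finset (Fin n) := by
  classical
  exact (univ.filter fun D : KC G S c => sm D = p).image i

theorem mem_II {n : ℕ} {i : KC G S c → Fin n} {p : ℝ} {k : Fin n} :
    k ∈ II i p ↔ ∃ D, sm D = p ∧ i D = k := by
  classical
  unfold II
  simp only [mem_image, mem_filter, mem_univ, true_and]

/-- the coordinates of the vector of the component with slope `p` and index `k` -/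
noncomputable def mm {n : ℕ} (Q : Matrix (Fin n) V ℝ) (i : KC G S c → Fin n) (p : ℝ)
    (k l : Fin n) : ℝ := by
  classical
  exact if h : ∃ D, sm D = p ∧ i D = k then
    (xs h.choose.1.1.1 - xs h.choose.1.1.2) * ∑ v, Q l v * wv ℝ h.choose v else 0

theorem mm_eq {n : ℕ} {Q : Matrix (Fin n) V ℝ} {i : KC G S c → Fin n}
    (hinj : ∀ D D' : KC G S c, D.1.1 = D'.1.1 → i D = i D' → D = D') (D : KC G S c)
    (l : Fin n) : mm Q i (sm D) (i D) l =
      (xs D.1.1.1 - xs D.1.1.2) * ∑ v, Q l v * wv ℝ D v := by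
  classical
  have h : ∃ D', sm D' = sm D ∧ i D' = i D := ⟨D, rfl, rfl⟩
  have hc : h.choose = D := hinj _ _ (sm_inj h.choose_spec.1) h.choose_spec.2
  unfold mm
  rw [dif_pos h, hc]

end

theorem psim (hD : DimS) (hC : CountS) (hF : FrameS) (hK : KcompS) (hS : SwitchS)
    (hKd : KdimS) (hT : TransS) : PsimS := by
  classical
  intro V _ _ G S hconn hne
  obtain ⟨v0, hv0⟩ := hconn.1
  have hfr := fun c : {c // c ∈ cols G S 4} => by
    obtain ⟨k1, k2, k3, k4, k5⟩ := hK V G S c.1 c.2
    exact hF ℝ (KC G S c.1) V (ℕ × ℕ) (fun x => wv ℝ x) (fun x => x.1.1) S k1 k2 k3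
      (fun D D' v h h1 h2 => k4 D D' v h h1 h2)
      (fun A hA hA1 hA2 => by
        obtain ⟨a, ha, b, hb, hb2, hab⟩ := hconn.2 A hA hA1 hA2
        obtain ⟨x, hx1, hx2⟩ := k5 a (hA ha) b hb hab
        exact ⟨a, ha, b, hb, hb2, x, hx1, hx2⟩) v0 hv0
  choose B Q i hQB hBQ htri hinj hprod using hfr
  have : Nonempty {c // c ∈ cols G S 4} := ⟨⟨hne.choose, hne.choose_spec⟩⟩
  let d : FlagD ℝ V {c // c ∈ cols G S 4} (Fintype.card V) :=
    { A := prs.image fun s => xs s.1 + xs s.2
      γ := fun c => gam c.1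
      B := B
      Q := Q
      I := fun c p => II (i c) p
      m := fun c p => mm (Q c) (i c) p
      deg := by
        intro c v
        unfold gam
        refine (natDegree_sub_le _ _).trans (max_le ?_ ?_)
        · rw [natDegree_C]; exact Nat.zero_le _
        · exact (natDegree_C_mul_le _ _).trans natDegree_X_le
      QB := hQB
      BQ := hBQ
      cube := by
        intro c p hp T hT
        obtain ⟨s, hs, rfl⟩ := mem_image.1 hp
        obtain ⟨c', hc', h⟩ := hS V G S c.1 c.2 s hs
          (univ.filter fun D : KC G S c.1 => D.1.1 = s ∧ i c D ∈ T)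
          (fun x hx => (mem_filter.1 hx).2.1)
        refine ⟨⟨c', hc'⟩, fun v => ?_⟩
        rw [h v]
        congr 3
        symm
        refine sum_bij' (fun k _ => if h : ∃ D : KC G S c.1, sm D = xs s.1 + xs s.2 ∧ i c D = k
            then h.choose else Classical.choice ⟨(mem_II.1 (hT (by assumption))).choose⟩)
          (fun D _ => i c D) ?_ ?_ ?_ ?_ ?_
        · intro k hk
          have hex := mem_II.1 (hT hk)
          rw [dif_pos hex, mem_filter]
          refine ⟨mem_univ _, sum_inj hex.choose.2.1 hs hex.choose_spec.1, ?_⟩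
          rw [hex.choose_spec.2]; exact hk
        · intro D hD
          exact (mem_filter.1 hD).2.2
        · intro k hk
          have hex := mem_II.1 (hT hk)
          simp only [dif_pos hex]
          exact hex.choose_spec.2
        · intro D hD
          have h1 := (mem_filter.1 hD).2
          have hex : ∃ D' : KC G S c.1, sm D' = xs s.1 + xs s.2 ∧ i c D' = i c D :=
            ⟨D, by unfold sm; rw [h1.1], rfl⟩
          simp only [dif_pos hex]
          refine hinj c _ _ ?_ hex.choose_spec.2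
          rw [h1.1]
          exact sum_inj hex.choose.2.1 hs hex.choose_spec.1
        · intro k hk
          have hex := mem_II.1 (hT hk)
          simp only [dif_pos hex]
          obtain ⟨e1, e2⟩ := hex.choose_spec
          set D := hex.choose with hDdef
          have e3 : D.1.1 = s := sum_inj D.2.1 hs e1
          rw [← e1, ← e2]
          simp only [mm_eq (hinj c) D]
          have hBQ' : ∀ u, ∑ l, B c v l * Q c l u = if v = u then 1 else 0 := by
            intro u
            have := congrFun (congrFun (hBQ c) v) u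
            rw [Matrix.mul_apply, Matrix.one_apply] at this
            exact this
          calc ∑ l, B c v l * ((xs D.1.1.1 - xs D.1.1.2) * ∑ u, Q c l u * wv ℝ D u)
              = (xs D.1.1.1 - xs D.1.1.2) *
                  ∑ u, (∑ l, B c v l * Q c l u) * wv ℝ D u := by
                simp only [mul_sum, sum_mul]
                rw [sum_comm]
                exact sum_congr rfl fun u _ => sum_congr rfl fun l _ => by ring
            _ = (xs D.1.1.1 - xs D.1.1.2) * wv ℝ D v := by
                simp only [hBQ', ite_mul, one_mul, zero_mul]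
                rw [sum_ite_eq univ v, if_pos (mem_univ v)]
            _ = _ := by rw [e3]
      tri := by
        intro c p hp k hk
        obtain ⟨D, rfl, rfl⟩ := mem_II.1 hk
        obtain ⟨t1, t2⟩ := htri c D
        refine ⟨fun l hl => ?_, ?_⟩
        · rw [mm_eq (hinj c), t1 l hl, mul_zero]
        · rw [mm_eq (hinj c)]
          exact mul_ne_zero (sub_ne D.2.1) t2 }
  have hbt : ∀ c k, d.bt c k = (univ.filter fun D : KC G S c.1 => i c D = k).card := by
    intro c k
    unfold FlagD.bt
    symm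
    refine card_bij (fun D _ => sm D) ?_ ?_ ?_
    · intro D hD
      rw [mem_filter] at hD ⊢
      refine ⟨mem_image.2 ⟨D.1.1, D.2.1, rfl⟩, ?_⟩
      exact mem_II.2 ⟨D, rfl, hD.2⟩
    · intro D hD D' hD' h
      rw [mem_filter] at hD hD'
      exact hinj c _ _ (sm_inj h) (hD.2.trans hD'.2.symm)
    · intro p hp
      rw [mem_filter] at hp
      obtain ⟨D, h1, h2⟩ := mem_II.1 hp.2
      exact ⟨D, mem_filter.2 ⟨mem_univ _, h2⟩, h1⟩
  have h1 := hC _ _ (fun c => d.bt c) (fun D => hD ℝ V _ _ D d)
  have h2 : ∀ c : {c // c ∈ cols G S 4}, ∏ k, (1 / (1 + (d.bt c k : ℝ))) ≤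
      9 / 8 * ((4 / 3) ^ D2 G S c.1 / 2 ^ D3 G S c.1) := by
    intro c
    obtain ⟨q1, q2⟩ := hKd V G S c.1 c.2
    have q3 := hT V G S c.1 c.2 v0 hv0
    rw [← q2] at q3
    have e : ∏ k, (1 / (1 + (d.bt c k : ℝ))) = 1 / ∏ k, (1 + (d.bt c k : ℝ)) := by
      rw [prod_div_distrib, prod_const_one]
    rw [e]
    simp only [hbt]
    rw [hprod c, q1]
    set l := Module.finrank ℝ (Rel (fun x : KC G S c.1 => wv ℝ x)
      (inc (fun x : KC G S c.1 => wv ℝ x) v0)) with hl
    obtain ⟨r, hr⟩ := Nat.exists_eq_add_of_le q3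
    rw [hr]
    have p1 : (0 : ℝ) < (3 / 4) ^ l := by positivity
    have p2 : (0 : ℝ) < 2 ^ Fintype.card (KC G S c.1) := by positivity
    have p3 : ((4 : ℝ) / 3) ^ l * (3 / 4) ^ l = 1 := by
      rw [← mul_pow]; norm_num
    have p4 : (1 : ℝ) ≤ (4 / 3) ^ r := one_le_pow₀ (by norm_num)
    have p5 : (0 : ℝ) < (4 / 3) ^ l := by positivity
    rw [pow_add, pow_add, div_le_iff₀ (by positivity)]
    have : 9 / 8 * ((4 / 3 : ℝ) ^ l * (4 / 3) ^ 2 * (4 / 3) ^ r /
        2 ^ Fintype.card (KC G S c.1)) * (2 ^ Fintype.card (KC G S c.1) / 2 * (3 / 4) ^ l) =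
        (((4 : ℝ) / 3) ^ l * (3 / 4) ^ l) * (4 / 3) ^ r := by
      field_simp
      ring
    rw [this, p3, one_mul]
    exact p4
  have h3 := h1.trans (sum_le_sum fun c _ => h2 c)
  rw [← mul_sum] at h3
  have h4 : ∑ c : {c // c ∈ cols G S 4}, ((4 / 3 : ℝ) ^ D2 G S c.1 / 2 ^ D3 G S c.1) =
      ∑ c ∈ cols G S 4, (4 / 3) ^ D2 G S c / 2 ^ D3 G S c :=
    sum_coe_sort (cols G S 4) fun c => (4 / 3 : ℝ) ^ D2 G S c / 2 ^ D3 G S c
  rw [h4] at h3
  linarith

end Pool.Agent.Xu.H41
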